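import Pool.Agent.T9h72.EX.Spec

/-!
# Project EX, piece (ADD) (helper95)
-/

set_option autoImplicit false

open Complex Filter Topology Metric Set
open Pool.Agent.Helper797.Bs Pool.Agent.K7.H38.MD

namespace Pool.Agent.T9h95.EX

open Pool.Agent.T9h72.EX

theorem spec_add {F G : ℂ × ℂ → ℂ} (hF : SpecDisc F) (hG : SpecDisc G) (c : ℂ) :
    SpecDisc (fun z => F z + c * G z) := by
  refine ⟨hF.1.add (analyticOnNhd_const.mul hG.1), fun ε hε => ?_⟩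
  obtain ⟨C1, h1⟩ := hF.2 ε hε
  obtain ⟨C2, h2⟩ := hG.2 ε hε
  refine ⟨C1 + ‖c‖ * C2, fun z => ?_⟩
  calc ‖F z + c * G z‖ ≤ ‖F z‖ + ‖c * G z‖ := norm_add_le _ _
    _ = ‖F z‖ + ‖c‖ * ‖G z‖ := by rw [norm_mul]
    _ ≤ C1 * Real.exp (√(z.1.im ^ 2 + z.2.im ^ 2) + ε * ‖z‖) +
        ‖c‖ * (C2 * Real.exp (√(z.1.im ^ 2 + z.2.im ^ 2) + ε * ‖z‖)) :=
      add_le_add (h1 z) (mul_le_mul_of_nonneg_left (h2 z) (norm_nonneg c))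
    _ = _ := by ring

theorem add : S_ADD := by
  rintro f ⟨⟨M1, hM1⟩, F, hF, hf⟩ g ⟨⟨M2, hM2⟩, G, hG, hg⟩ c
  refine ⟨⟨M1 + ‖c‖ * M2, fun p => ?_⟩, fun z => F z + c * G z, spec_add hF hG c, fun x y => ?_⟩
  · calc ‖f p + c * g p‖ ≤ ‖f p‖ + ‖c * g p‖ := norm_add_le _ _
      _ = ‖f p‖ + ‖c‖ * ‖g p‖ := by rw [norm_mul]
      _ ≤ _ := add_le_add (hM1 p) (mul_le_mul_of_nonneg_left (hM2 p) (norm_nonneg c))
  · simp only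
    rw [hf, hg]

end Pool.Agent.T9h95.EX
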